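import Mathlib
import Pool.Agent.PatternDensity.Defs
import Pool.Agent.PatternDensity.Grid
import Pool.Agent.PatternDensity.Groups
import Pool.Agent.PatternDensity.Count
import Pool.Agent.PatternDensity.Final
import Pool.Agent.PatternDensity.Numeric

/-!
# Balanced patterns force superpolynomially small density (MP_9357f2_co, Q1)

For every `G` the fixed balanced pattern `(plus minus minus plus)^((4G+1)!)` has
`δ(n, ⌊n/2⌋, P) ≤ n^(-G)` for all large `n`.  In particular the answer to Q1 is yes.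

Proof idea.  Cut `[n]` into `k` intervals of length `w`.  The sets obtained from a fixed set `C` by
adding one element of each interval outside `C` form a grid, ordered in each coordinate, and the
middle layer is covered evenly by such grids.  If a subset `Y` of a grid has density more than
`a / N^ρ`, then only few points of `Y` are alone in one of the slices in given `ρ` coordinates, so
every other point can move inside `Y` in each of these sets of coordinates; the move has a sign
type.  After passing to a richer core all moves in a direction have the same type.  Two parallel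
sets of coordinates with the same sign type, one shifted against the other as this type prescribes,
then give two points of `Y` whose difference has the sign pattern `(+-)^h`, `h ≤ ρ`.  Combining
`ρ!/h` of them gives `(+-)^(ρ!)` in the grid, that is the pattern `(plus minus minus plus)^(ρ!)`.
-/

set_option autoImplicit false

namespace Pool.Agent.PatternDensity

open Filter

lemma pat_balanced {L : ℕ} (hL : 0 < L) : Balanced (pat L) :=
  ⟨2 * L, by omega, pat_count_true L, pat_count_false L⟩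

/-- the counting form -/
theorem main (G : ℕ) : ∃ n₀ : ℕ, ∀ n, n₀ ≤ n → ∀ 𝒜 : Finset (Finset (Fin n)),
    (∀ A ∈ 𝒜, A.card = n / 2) → PatternFree (pat (4 * G + 1).factorial) 𝒜 →
    n ^ G * 𝒜.card ≤ n.choose (n / 2) := by
  obtain ⟨B, M, a, hB, hM, hgrid⟩ := grid (4 * G + 1) (by omega)
  set k := B * (4 * G + 1) * M with hk
  have hk0 : 0 < k := Nat.mul_pos (Nat.mul_pos hB (by omega)) hM
  set N₀ := 4 * G + 9 + 2 * a * (16 * k) ^ G + 8 * k * (16 * k) ^ (G + 1) with hN₀
  refine ⟨k * N₀ ^ 4, ?_⟩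
  intro n hn 𝒜 hm h𝒜
  set w := n / k with hw
  set N := Nat.sqrt (Nat.sqrt w) with hN
  have hw0 : N₀ ^ 4 ≤ w := by
    rw [hw, Nat.le_div_iff_mul_le hk0, mul_comm]; exact hn
  have hN1 : N₀ ≤ N := by
    rw [hN, Nat.le_sqrt, Nat.le_sqrt]
    calc N₀ * N₀ * (N₀ * N₀) = N₀ ^ 4 := by ring
      _ ≤ w := hw0
  have hw1 : N ^ 4 ≤ w := by
    have e1 : N * N ≤ Nat.sqrt w := Nat.sqrt_le _
    have e2 : Nat.sqrt w * Nat.sqrt w ≤ w := Nat.sqrt_le _
    calc N ^ 4 = (N * N) * (N * N) := by ring
      _ ≤ Nat.sqrt w * Nat.sqrt w := Nat.mul_le_mul e1 e1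
      _ ≤ w := e2
  have hw2 : w < (N + 1) ^ 4 := by
    have e1 : Nat.sqrt w < (N + 1) * (N + 1) := Nat.lt_succ_sqrt _
    have e2 : w < (Nat.sqrt w + 1) * (Nat.sqrt w + 1) := Nat.lt_succ_sqrt _
    calc w < (Nat.sqrt w + 1) * (Nat.sqrt w + 1) := e2
      _ ≤ ((N + 1) * (N + 1)) * ((N + 1) * (N + 1)) := Nat.mul_le_mul e1 e1
      _ = (N + 1) ^ 4 := by ring
  have hNpos : 0 < N := by omega
  have hwpos : 0 < w := lt_of_lt_of_le (pow_pos hNpos 4) hw1
  have hkw : k * w ≤ n := by rw [hw, mul_comm]; exact Nat.div_mul_le_self n k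
  have h1 := card_family_le (4 * G + 1) B M a n w N (n / 2) hNpos hwpos (by rw [← hk]; exact hkw)
    hgrid 𝒜 h𝒜 hm
  rw [← hk] at h1
  exact num3 k a G N w n 𝒜.card hk0 hw (by omega) hw1 hw2 h1

lemma density_le {n G : ℕ} {P : List Bool} (hn : 0 < n)
    (h : ∀ 𝒜 : Finset (Finset (Fin n)), (∀ A ∈ 𝒜, A.card = n / 2) → PatternFree P 𝒜 →
    n ^ G * 𝒜.card ≤ n.choose (n / 2)) : density n (n / 2) P ≤ (n : ℝ) ^ (-(G : ℝ)) := by
  have h1 : n ^ G * maxFree n (n / 2) P ≤ n.choose (n / 2) := by
    have hpos : 0 < n ^ G := pow_pos hn G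
    rw [mul_comm, ← Nat.le_div_iff_mul_le hpos]
    apply csSup_le
    · exact ⟨0, ∅, by simp, by intro A hA; simp at hA, by simp⟩
    · rintro m ⟨𝒜, hA1, hA2, rfl⟩
      rw [Nat.le_div_iff_mul_le hpos, mul_comm]
      exact h 𝒜 hA1 hA2
  have hc : (0 : ℝ) < (n.choose (n / 2) : ℝ) := by
    exact_mod_cast Nat.choose_pos (Nat.div_le_self n 2)
  have hn' : (0 : ℝ) < (n : ℝ) ^ G := by positivity
  unfold density
  rw [Real.rpow_neg (by positivity), Real.rpow_natCast, div_le_iff₀ hc, inv_mul_eq_div,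
    le_div_iff₀ hn']
  have h2 : ((n ^ G * maxFree n (n / 2) P : ℕ) : ℝ) ≤ (n.choose (n / 2) : ℝ) := by
    exact_mod_cast h1
  push_cast at h2
  linarith

end Pool.Agent.PatternDensity

namespace Pool.Agent.Results.MP_9357f2_co.SuperpolynomialPatterns

open Filter Pool.Agent.PatternDensity

/-- **Q1 is answered positively.**  There are a strictly increasing sequence of even integers
`n_k`, balanced patterns `P_k` and `g(k) → ∞` with `δ(n_k, n_k/2, P_k) ≤ n_k^(-g(k))`; the bound
`δ(N, ⌊N/2⌋, P_k) ≤ N^(-g(k))` even holds for the same pattern `P_k` and all `N ≥ n_k`. -/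
theorem result : ∃ (n : ℕ → ℕ) (P : ℕ → List Bool) (g : ℕ → ℝ),
    StrictMono n ∧ (∀ k, Even (n k)) ∧ (∀ k, Balanced (P k)) ∧ Tendsto g atTop atTop ∧
      ∀ k N : ℕ, n k ≤ N → density N (N / 2) (P k) ≤ (N : ℝ) ^ (-(g k)) := by
  have key : ∀ G : ℕ, ∃ n₀ : ℕ, ∀ n, n₀ ≤ n →
      density n (n / 2) (pat (4 * G + 1).factorial) ≤ (n : ℝ) ^ (-(G : ℝ)) := by
    intro G
    obtain ⟨n₀, h⟩ := main G
    exact ⟨n₀ + 1, fun n hn => density_le (by omega) (h n (by omega))⟩
  choose n₀ hn₀ using key
  refine ⟨fun k => 2 * ∑ i ∈ Finset.range (k + 1), (n₀ i + 1),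
    fun k => pat (4 * k + 1).factorial, fun k => (k : ℝ), ?_, ?_, ?_,
    tendsto_natCast_atTop_atTop, ?_⟩
  · apply strictMono_nat_of_lt_succ
    intro k
    rw [Finset.sum_range_succ _ (k + 1)]
    omega
  · intro k; exact even_two_mul _
  · intro k; exact pat_balanced (Nat.factorial_pos _)
  · intro k N hN
    apply hn₀
    have h1 : n₀ k + 1 ≤ ∑ i ∈ Finset.range (k + 1), (n₀ i + 1) :=
      Finset.single_le_sum (f := fun i => n₀ i + 1) (fun i _ => Nat.zero_le _)
        (Finset.self_mem_range_succ k)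
    simp only at hN
    omega

end Pool.Agent.Results.MP_9357f2_co.SuperpolynomialPatterns
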